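import Mathlib
import Pool.Agent.V8H98.CVP.Free

set_option autoImplicit false

namespace Pool.Agent.Results.MP_830418_an.FreeSubgroups

open Pool.Agent.V8H98.CVP

/-- Let `G` be a group which contains a free group of rank two, or which satisfies the criterion described in the
second alternative (two infinite subgroups, the second one amenable, with a sparse graph of cosets). Then every
interval of exponents is the exact set of exponents `p > 1` for which some nonnegative function is a `p`-convolver,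
and in particular for every `p ≠ 2` some `p`-convolver has an involution that is not a `p`-convolver. -/
theorem result (G : Type*) [Group G]
    (hG : (∃ φ : FreeGroup (Fin 2) →* G, Function.Injective φ) ∨
      ∃ (H₁ H₂ : Subgroup G) (M : ℕ), Infinite H₁ ∧ Infinite H₂ ∧ Folner H₂ ∧
        ∀ E : Finset G, E.card ≤ M * (rightCosets H₁ E + rightCosets H₂ E)) :
    (∀ I : Set ℝ, I.OrdConnected → I ⊆ Set.Ioi 1 →
      ∃ f : G → ℝ, (∀ g, 0 ≤ f g) ∧ ∀ p : ℝ, 1 < p →
        (IsConvolver p (fun g => (f g : ℂ)) ↔ p ∈ I) ∧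
        (IsConvolver p (fun g => starRingEnd ℂ (f g⁻¹ : ℂ)) ↔ p / (p - 1) ∈ I)) ∧
    (∀ p : ℝ, 1 < p → p ≠ 2 →
      ∃ f : G → ℂ, IsConvolver p f ∧ ¬ IsConvolver p (fun g => starRingEnd ℂ (f g⁻¹))) := by
  have hD : Nonempty (Data G) := by
    rcases hG with ⟨φ, hφ⟩ | ⟨H₁, H₂, M, h₁, h₂, hF, hE⟩
    · exact data_of_free φ hφ
    · obtain ⟨B, hB⟩ := splits_of_sparse hE
      exact exists_data hB h₁ h₂ hF
  obtain ⟨D⟩ := hD
  have h1 : ∀ I : Set ℝ, I.OrdConnected →
      ∃ f : G → ℝ, (∀ g, 0 ≤ f g) ∧ ∀ p : ℝ, 1 < p →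
        (IsConvolver p (fun g => (f g : ℂ)) ↔ p ∈ I) ∧
        (IsConvolver p (fun g => starRingEnd ℂ (f g⁻¹ : ℂ)) ↔ p / (p - 1) ∈ I) :=
    fun I hI => main_data D hI
  refine ⟨fun I hI _ => h1 I hI, fun p hp hp2 => ?_⟩
  obtain ⟨f, -, hf⟩ := h1 {p} Set.ordConnected_singleton
  refine ⟨fun g => (f g : ℂ), (hf p hp).1.2 rfl, fun hcon => ?_⟩
  have h3 : p / (p - 1) = p := (hf p hp).2.1 hcon
  rw [div_eq_iff (by linarith)] at h3
  have h4 : p * (p - 2) = 0 := by linarith
  rcases mul_eq_zero.1 h4 with h5 | h5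
  · linarith
  · exact hp2 (by linarith)

end Pool.Agent.Results.MP_830418_an.FreeSubgroups
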